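import Pool.Agent.U62.RB.Art

/-!
# The normal law for the number of primes with Lenstra's condition

Lenstra's set `𝒮(F, C, W, k)` consists of the primes `q` with Frobenius class in `C` such that `W` consists of units modulo `q` and
the index of `W` modulo `q` divides `k`.  We consider the groups `W = ⟨a_1, ..., a_r⟩` generated by random integers with
`|a_j| ≤ H`.  The set of the primes `q ≤ y` with Frobenius class in `C` is here an arbitrary finite set `T` of primes.

* **(A)** The number of the `q ∈ T` with the index condition, minus its expected value (the sum of the local densities) and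
  divided by the square root of the variance `∑ d_q (1 - d_q)` of the model of independent primes, is normally distributed
  in the limit, as soon as the variance is large and `H ≥ y ^ K`: uniformly in the set `T` and in `k`.
* **(B)** For the set of all primes up to `y` (`F = ℚ`) the variance tends to infinity, for all `r`, `k ≥ 1`, so that the normal
  law holds without any condition.
* **(C)** Artin's case `r = k = 1` explicitly: for random `a`, `|a| ≤ H`, the number of the primes `q ≤ y` with the primitive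
  root `a` is normally distributed with mean `∑ φ(q - 1) / q` and variance `∑ φ(q - 1) / q (1 - φ(q - 1) / q)`.
-/

set_option autoImplicit false

namespace Pool.Agent.Results.MP_48b1c3_nt.NormalLaw

open Finset Filter ProbabilityTheory

/-- The index of the image of `⟨a_1, ..., a_r⟩` in the group of units modulo `q`. -/
noncomputable def index {r : ℕ} (a : Fin r → ℤ) (q : ℕ) : ℕ :=
  (Subgroup.closure {u : (ZMod q)ˣ | ∃ j, (u : ZMod q) = ((a j : ℤ) : ZMod q)}).index

/-- Lenstra's condition at `q`: all `a_j` are units at `q`, and the index divides `k`. -/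
def Condition {r : ℕ} (k q : ℕ) (a : Fin r → ℤ) : Prop := (∀ j, ¬ (q : ℤ) ∣ a j) ∧ index a q ∣ k

open scoped Classical in
/-- The number of the `q ∈ T` with Lenstra's condition. -/
noncomputable def count {r : ℕ} (k : ℕ) (T : Finset ℕ) (a : Fin r → ℤ) : ℕ := (T.filter fun q => Condition k q a).card

open scoped Classical in
/-- The local density: the proportion of the `r`-tuples of residues modulo `q` with the condition. -/
noncomputable def density (r k q : ℕ) : ℝ :=
  (((Fintype.piFinset fun _ : Fin r => range q).filter fun t => Condition k q fun l => (t l : ℤ)).card : ℝ) / (q : ℝ) ^ r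

/-- The expected number: the sum of the local densities. -/
noncomputable def expected (r k : ℕ) (T : Finset ℕ) : ℝ := ∑ q ∈ T, density r k q

/-- The variance of the model. -/
noncomputable def variance (r k : ℕ) (T : Finset ℕ) : ℝ := ∑ q ∈ T, density r k q * (1 - density r k q)

/-- The primes up to `y`. -/
def primesUpTo (y : ℕ) : Finset ℕ := (range (y + 1)).filter Nat.Prime

/-- The proportion of the integer vectors `a` with coordinates of absolute value at most `H` which have the property `Q`. -/
noncomputable def proportion {r : ℕ} (H : ℕ) (Q : (Fin r → ℤ) → Prop) : ℝ :=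
  ({a : Fin r → ℤ | (∀ i, |a i| ≤ H) ∧ Q a}.ncard : ℝ) / (2 * H + 1 : ℝ) ^ r

open scoped Classical in
/-- The number of the primes `q ≤ y` with the primitive root `a`. -/
noncomputable def artin (y : ℕ) (a : ℤ) : ℕ :=
  ((primesUpTo y).filter fun q => orderOf ((a : ℤ) : ZMod q) = q - 1).card

/-- `∑ φ(q - 1) / q` over the primes `q ≤ y`. -/
noncomputable def artinMean (y : ℕ) : ℝ := ∑ q ∈ primesUpTo y, (Nat.totient (q - 1) : ℝ) / q

/-- `∑ φ(q - 1) / q (1 - φ(q - 1) / q)` over the primes `q ≤ y`. -/
noncomputable def artinVariance (y : ℕ) : ℝ :=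
  ∑ q ∈ primesUpTo y, (Nat.totient (q - 1) : ℝ) / q * (1 - (Nat.totient (q - 1) : ℝ) / q)

theorem part_A (r : ℕ) (u ε : ℝ) (hε : 0 < ε) : ∃ K : ℕ, ∀ (k : ℕ) (T : Finset ℕ) (y H : ℕ),
    (∀ q ∈ T, q.Prime ∧ q ≤ y) → K ≤ variance r k T → y ^ K ≤ H →
    |proportion H (fun a : Fin r → ℤ => (count k T a : ℝ) ≤ expected r k T + u * √(variance r k T)) -
      (gaussianReal 0 1).real (Set.Iic u)| ≤ ε := by
  obtain ⟨K, hK⟩ := Pool.Agent.U62.RB.normal_per r u hε
  exact ⟨K, fun k T y H hT hV hH => hK (fun q => Pool.Agent.U62.RB.InS k q) T y H hT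
    (fun q _ => Pool.Agent.U62.RB.InS_per k q) hV hH⟩

theorem part_B (r k : ℕ) (hr : 1 ≤ r) (hk : 1 ≤ k) :
    Tendsto (fun y => variance r k (primesUpTo y)) atTop atTop :=
  Pool.Agent.U62.RB.var_tendsto r k hr (by omega)

theorem law_all (r k : ℕ) (hr : 1 ≤ r) (hk : 1 ≤ k) (u ε : ℝ) (hε : 0 < ε) : ∃ K : ℕ, ∀ y H : ℕ, K ≤ y → y ^ K ≤ H →
    |proportion H (fun a : Fin r → ℤ => (count k (primesUpTo y) a : ℝ) ≤ expected r k (primesUpTo y) +
      u * √(variance r k (primesUpTo y))) - (gaussianReal 0 1).real (Set.Iic u)| ≤ ε := by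
  obtain ⟨K, hK⟩ := part_A r u ε hε
  obtain ⟨K2, hK2⟩ := Filter.eventually_atTop.1 ((part_B r k hr hk).eventually_ge_atTop (K : ℝ))
  refine ⟨max (max K K2) 1, fun y H hy hH => ?_⟩
  have h1 : K2 ≤ y := (le_max_right _ _).trans ((le_max_left _ _).trans hy)
  have h2 : 1 ≤ y := (le_max_right _ _).trans hy
  refine hK k (primesUpTo y) y H (fun q hq => ?_) (hK2 y h1) ?_
  · unfold primesUpTo at hq
    rw [Finset.mem_filter, Finset.mem_range] at hq
    exact ⟨hq.2, by omega⟩
  · exact (Nat.pow_le_pow_right h2 ((le_max_left _ _).trans (le_max_left _ _))).trans hH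

theorem ncard_one (H : ℕ) (Q : ℤ → Prop) :
    {a : Fin 1 → ℤ | (∀ i, |a i| ≤ H) ∧ Q (a 0)}.ncard = {a : ℤ | |a| ≤ H ∧ Q a}.ncard := by
  refine Set.ncard_congr (fun a _ => a 0) ?_ ?_ ?_
  · rintro a ⟨h1, h2⟩
    exact ⟨h1 0, h2⟩
  · intro a b _ _ h
    funext j
    rw [Subsingleton.elim j 0]
    exact h
  · rintro a ⟨h1, h2⟩
    exact ⟨fun _ => a, ⟨fun _ => h1, h2⟩, rfl⟩

/-- **The normal law for Lenstra's condition.**  (A) For all `r`, `u` and `ε > 0` there is a `K` such that for all `k`, all finite
sets `T` of primes `q ≤ y` with `variance r k T ≥ K` and all `H ≥ y ^ K` the proportion of the `a ∈ ℤ ^ r`, `|a_j| ≤ H`,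
for which the number of the `q ∈ T` with Lenstra's condition for `⟨a_1, ..., a_r⟩` and `k` is at most
`expected r k T + u (variance r k T) ^ (1/2)`, is `Φ(u)` up to `ε`, `Φ` the distribution function of the standard normal law.
(B) For all `r, k ≥ 1` the variance of the set of all primes up to `y` tends to infinity with `y`, and the normal law holds
for this set, for `y ≥ K` and `H ≥ y ^ K`.  (C) The case of Artin's conjecture: for `y ≥ K` and `H ≥ y ^ K` the proportion
of the integers `|a| ≤ H` which are primitive roots for at most `∑ φ(q-1)/q + u (∑ φ(q-1)/q (1 - φ(q-1)/q)) ^ (1/2)` primes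
`q ≤ y` is `Φ(u)` up to `ε`, and the variance tends to infinity. -/
theorem result :
    (∀ (r : ℕ) (u ε : ℝ), 0 < ε → ∃ K : ℕ, ∀ (k : ℕ) (T : Finset ℕ) (y H : ℕ),
      (∀ q ∈ T, q.Prime ∧ q ≤ y) → K ≤ variance r k T → y ^ K ≤ H →
      |proportion H (fun a : Fin r → ℤ => (count k T a : ℝ) ≤ expected r k T + u * √(variance r k T)) -
        (gaussianReal 0 1).real (Set.Iic u)| ≤ ε) ∧
    (∀ r k : ℕ, 1 ≤ r → 1 ≤ k → Tendsto (fun y => variance r k (primesUpTo y)) atTop atTop ∧
      ∀ u ε : ℝ, 0 < ε → ∃ K : ℕ, ∀ y H : ℕ, K ≤ y → y ^ K ≤ H →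
      |proportion H (fun a : Fin r → ℤ => (count k (primesUpTo y) a : ℝ) ≤ expected r k (primesUpTo y) +
        u * √(variance r k (primesUpTo y))) - (gaussianReal 0 1).real (Set.Iic u)| ≤ ε) ∧
    Tendsto artinVariance atTop atTop ∧
    ∀ u ε : ℝ, 0 < ε → ∃ K : ℕ, ∀ y H : ℕ, K ≤ y → y ^ K ≤ H →
      |({a : ℤ | |a| ≤ H ∧ (artin y a : ℝ) ≤ artinMean y + u * √(artinVariance y)}.ncard : ℝ) / (2 * H + 1) -
        (gaussianReal 0 1).real (Set.Iic u)| ≤ ε := by
  classical
  have hd : ∀ q : ℕ, q.Prime → density 1 1 q = (Nat.totient (q - 1) : ℝ) / q := fun q hq =>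
    Pool.Agent.U62.RB.dens_one q hq
  have hprime : ∀ y q : ℕ, q ∈ primesUpTo y → q.Prime := fun y q hq => (Finset.mem_filter.1 hq).2
  have hV : ∀ y, variance 1 1 (primesUpTo y) = artinVariance y := fun y =>
    Finset.sum_congr rfl fun q hq => by rw [hd q (hprime y q hq)]
  have hE : ∀ y, expected 1 1 (primesUpTo y) = artinMean y := fun y =>
    Finset.sum_congr rfl fun q hq => hd q (hprime y q hq)
  have hcount : ∀ y (a : Fin 1 → ℤ), count 1 (primesUpTo y) a = artin y (a 0) := by
    intro y a
    unfold count artin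
    congr 1
    refine Finset.filter_congr fun q hq => ?_
    exact Pool.Agent.U62.RB.InS_one_iff q (hprime y q hq) a
  refine ⟨part_A, fun r k hr hk => ⟨part_B r k hr hk, law_all r k hr hk⟩, ?_, fun u ε hε => ?_⟩
  · have h := part_B 1 1 le_rfl le_rfl
    simp only [hV] at h
    exact h
  · obtain ⟨K, hK⟩ := law_all 1 1 le_rfl le_rfl u ε hε
    refine ⟨K, fun y H hy hH => ?_⟩
    have h := hK y H hy hH
    unfold proportion at h
    simp only [hV, hE, hcount] at h
    rw [ncard_one H (fun a => (artin y a : ℝ) ≤ artinMean y + u * √(artinVariance y)), pow_one] at h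
    exact h

end Pool.Agent.Results.MP_48b1c3_nt.NormalLaw
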